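import Pool.Agent.Lib.MP_a8c702_nt.RG.Main

namespace Pool.Agent.Results.MP_a8c702_nt.BoseRigid

open Finset Pool.Agent.Lib.MP_a8c702_nt.RG

theorem result (K L Γ : Type) [Field K] [Fintype K] [Field L] [Algebra K L] [AddCommGroup Γ]
    (hq : Odd (Fintype.card K)) (h3 : Module.finrank K L = 3) (θ : L)
    (hθ : θ ∉ Set.range (algebraMap K L)) (φ : L → Γ)
    (hm : ∀ a b, a ≠ 0 → b ≠ 0 → φ (a * b) = φ a + φ b)
    (hi : ∀ a b, a ≠ 0 → b ≠ 0 → φ a = φ b → a = b) (A : Finset Γ)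
    (hA : ∀ S ⊆ A, ∀ T ⊆ A, S.card = 3 → T.card = 3 → ∑ x ∈ S, x = ∑ x ∈ T, x → S = T)
    (γ₀ : Γ) (X : Finset K) (hX : ∀ x ∈ X, γ₀ + φ (θ - algebraMap K L x) ∈ A)
    (hc : 7 / 8 * (Fintype.card K : ℝ) + 16 * √(Fintype.card K) ≤ X.card)
    (C : Finset Γ) (hC : ∀ a ∈ A, ∃ γ ∈ C, ∃ z, z ≠ 0 ∧ a = γ + φ z) :
    (A.card : ℝ) ≤ Fintype.card K + 6 * C.card ^ 2 + 4 * C.card * (√(Fintype.card K) + 1) := by
  classical
  have h1 : ((Fintype.card K).sqrt : ℝ) ≤ √(Fintype.card K) := Real.nat_sqrt_le_real_sqrt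
  have h2 : (1 : ℝ) ≤ √(Fintype.card K) :=
    Real.one_le_sqrt.2 (Nat.one_le_cast.2 Fintype.card_pos)
  have h4 := (bas θ h3 hθ).main (fun e => by
    have := FiniteField.even_card_of_char_two e
    obtain ⟨k, hk⟩ := hq
    omega) hm hi hA hX (by
    have : (7 * Fintype.card K + 96 * (Fintype.card K).sqrt + 24 : ℝ) < 8 * X.card := by linarith
    exact_mod_cast this) hC
  have h5 : (A.card : ℝ) ≤ Fintype.card K + 6 * C.card ^ 2 +
      4 * C.card * ((Fintype.card K).sqrt + 1) := by exact_mod_cast h4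
  refine h5.trans ?_
  gcongr

end Pool.Agent.Results.MP_a8c702_nt.BoseRigid
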