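import Pool.Agent.Lib.MP_a8c702_nt.RI.Main

namespace Pool.Agent.Results.MP_a8c702_nt.BoseRigidInt

open Finset Pool.Agent.Lib.MP_a8c702_nt.RG

theorem both (ε : ℝ) (hε : 0 < ε) : ∃ q₀ : ℕ, ∀ (K L : Type) [Field K] [Fintype K] [Field L]
    [Algebra K L] (q : ℕ), Fintype.card K = q → Odd q → q₀ ≤ q → Module.finrank K L = 3 →
    ∀ θ g lam : L, θ ∉ Set.range (algebraMap K L) → orderOf g = q ^ 3 - 1 →
    ∀ (n : ℕ) (A B : Finset ℤ) (u : ℤ), A ⊆ Finset.Icc (1 : ℤ) n →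
    (∀ S ⊆ A, ∀ T ⊆ A, S.card = 3 → T.card = 3 → ∑ x ∈ S, x = ∑ x ∈ T, x → S = T) →
    B ⊆ A → 995 / 1000 * (q : ℝ) ≤ B.card →
    (∀ b ∈ B, u ≤ b ∧ b < u + (q ^ 3 - 1) ∧ ∃ x, g ^ b = lam * (θ - algebraMap K L x)) →
    (A.card : ℝ) ≤ q + 6 * (40000 * (n / (q ^ 3 - 1)) + 1) ^ 2 +
        4 * (40000 * (n / (q ^ 3 - 1)) + 1) * (√q + 1) ∧
      (n ^ 2 ≤ q ^ 7 → (A.card : ℝ) ≤ (1 + ε) * (n : ℝ) ^ (1 / 3 : ℝ)) := by
  classical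
  obtain ⟨δ, d0, d1, d2⟩ : ∃ δ : ℝ, 0 < δ ∧ δ ≤ 1 / 10 ∧ 10 * δ ≤ ε :=
    ⟨min 1 ε / 10, by positivity, by linarith [min_le_left 1 ε], by linarith [min_le_right 1 ε]⟩
  obtain ⟨R, R1, R2⟩ : ∃ R : ℕ, 40000 ≤ R ∧ 1 ≤ δ * R := ⟨40000 + ⌈1 / δ⌉₊, by omega, by
    have := (div_le_iff₀ d0).1 (Nat.le_ceil (1 / δ))
    push_cast
    nlinarith⟩
  have R3 : (40000 : ℝ) ≤ R := by exact_mod_cast R1
  have h0 : 0 < δ / R := by positivity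
  have h1 : δ / R ≤ 1 := (div_le_one (by positivity)).2 (by linarith)
  obtain ⟨k, hk⟩ := exists_k h0 h1
  obtain ⟨T, T1, T2, T3⟩ : ∃ T : ℝ, 30 ≤ T ∧ 40000000000 ≤ δ * T ∧ 80 * (2 * k + 1) ≤ δ / R * T :=
    ⟨30 + 40000000000 / δ + 80 * (2 * k + 1) / (δ / R), by
      linarith [show 0 ≤ 40000000000 / δ by positivity,
        show 0 ≤ 80 * (2 * k + 1) / (δ / R) by positivity], by
      rw [mul_add, mul_add, mul_div_cancel₀ _ d0.ne']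
      linarith [show 0 ≤ δ * (80 * (2 * k + 1) / (δ / R)) by positivity], by
      rw [mul_add (δ / R), mul_div_cancel₀ _ h0.ne']
      exact le_add_of_nonneg_left (by positivity)⟩
  refine ⟨⌈T ^ 6⌉₊, fun K L _ _ _ _ q hq ho h2 h3 θ g lam hθ hg n A B u hn hA hB hc hu => ?_⟩
  obtain ⟨t, t0, ht⟩ : ∃ t : ℝ, 0 ≤ t ∧ t ^ 6 = q :=
    ⟨_, by positivity, Real.rpow_inv_natCast_pow (Nat.cast_nonneg q) (by norm_num)⟩
  have t1 : T ≤ t := le_of_pow_le_pow_left₀ (by norm_num) t0 (ht ▸ Nat.ceil_le.1 h2)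
  have t2 : √q = t ^ 3 := by
    rw [← ht, show 6 = 3 * 2 from rfl, pow_mul, Real.sqrt_sq (by positivity)]
  have t3 : t ≤ t ^ 3 := le_self_pow₀ (by linarith) three_ne_zero
  have t4 : 30 ^ 3 ≤ t ^ 3 := pow_le_pow_left₀ (by norm_num) (T1.trans t1) 3
  have t5 : (q : ℝ) = t ^ 3 * t ^ 3 := by rw [← ht]; ring
  have q1 : (2 : ℝ) ≤ q := by nlinarith
  obtain ⟨M, hM⟩ : ∃ M, q ^ 3 = M + 2 := ⟨q ^ 3 - 2, by
    have := Nat.pow_le_pow_left (show 2 ≤ q by exact_mod_cast q1) 3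
    omega⟩
  have M1 : (q : ℝ) ^ 3 = M + 1 + 1 := by exact_mod_cast hM
  have M2 : (q : ℤ) ^ 3 = M + 2 := by exact_mod_cast hM
  have s1 : (q.sqrt : ℝ) ≤ √q := Real.nat_sqrt_le_real_sqrt
  subst hq
  have H := fun J R h1 h2 => main_int (fun e => by
    have := FiniteField.even_card_of_char_two e
    obtain ⟨k, hk⟩ := ho
    omega) h3 hθ hM (by omega) (J := J) hA hB (u := u)
    (fun b hb => ⟨(hu b hb).1, by linarith [(hu b hb).2.1], (hu b hb).2.2⟩)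
    (by rw [t2]; nlinarith) (R := R) h1 h2
  obtain ⟨J, J1, J2⟩ := blocks 40000 n M
  have a1 : (#A : ℝ) ≤ Fintype.card K + 6 * #J ^ 2 + 4 * #J * ((Fintype.card K).sqrt + 1) := by
    exact_mod_cast (H J _ le_rfl fun a ha => J2 a (hn ha)).1
  rw [show (Fintype.card K : ℝ) ^ 3 - 1 = M + 1 by linarith]
  rw [Nat.cast_ofNat] at J1
  refine (and_iff_left_of_imp fun a2 h4 => ?_).2 (a1.trans (by gcongr))
  have s0 : 0 ≤ (n : ℝ) ^ (1 / 3 : ℝ) := by positivity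
  have hs : ((n : ℝ) ^ (1 / 3 : ℝ)) ^ 3 = n := by
    rw [one_div]
    exact Real.rpow_inv_natCast_pow (Nat.cast_nonneg n) three_ne_zero
  refine le_trans ?_ (mul_le_mul_of_nonneg_right (add_le_add_right d2 1) s0)
  rcases le_or_gt (Fintype.card K ^ 3) n with c | c
  · refine big (T1.trans t1) (by nlinarith) s0 hs (m := M + 1) (by rw [← M1, ← ht]; ring) ?_ ?_
      (by rwa [ht, ← t2])
    · rw [show 18 = 6 * 3 from rfl, pow_mul, ht]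
      exact_mod_cast c
    · rw [show 42 = 6 * 7 from rfl, pow_mul, ht]
      exact_mod_cast h4
  obtain ⟨J', J3, J4⟩ := blocks R n M
  have a3 : 80 * (2 * k + 1) ≤ δ / R * √(Fintype.card K) := by rw [t2]; nlinarith
  have a4 := (H J' R R1 fun a ha => J4 a (hn ha)).2 _ h0 h1 k hk a3
  have q2 : (Fintype.card K : ℝ) ≤ Fintype.card K ^ 3 := le_self_pow₀ (by linarith) three_ne_zero
  refine sml d0 d1 R2 (by linarith) (by nlinarith) s0 hs M1 (by exact_mod_cast (by omega)) J3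
    (a4.trans (mul_le_mul_of_nonneg_left ?_ (Nat.cast_nonneg _)))
    (hc.trans (Nat.cast_le.2 (card_le_card hB)))
  rw [t2] at a3 s1
  have k0 : (0 : ℝ) ≤ k := Nat.cast_nonneg k
  have a5 := mul_le_mul_of_nonneg_right a3 (pow_nonneg t0 3)
  rw [mul_assoc (δ / R), ← t5] at a5
  push_cast
  nlinarith

theorem result (ε : ℝ) (hε : 0 < ε) : ∃ q₀ : ℕ, ∀ (K L : Type) [Field K] [Fintype K] [Field L]
    [Algebra K L] (q : ℕ), Fintype.card K = q → Odd q → q₀ ≤ q → Module.finrank K L = 3 →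
    ∀ θ g lam : L, θ ∉ Set.range (algebraMap K L) → orderOf g = q ^ 3 - 1 →
    ∀ (n : ℕ) (A B : Finset ℤ) (u : ℤ), n ^ 2 ≤ q ^ 7 → A ⊆ Finset.Icc (1 : ℤ) n →
    (∀ S ⊆ A, ∀ T ⊆ A, S.card = 3 → T.card = 3 → ∑ x ∈ S, x = ∑ x ∈ T, x → S = T) →
    B ⊆ A → 995 / 1000 * (q : ℝ) ≤ B.card →
    (∀ b ∈ B, u ≤ b ∧ b < u + (q ^ 3 - 1) ∧ ∃ x, g ^ b = lam * (θ - algebraMap K L x)) →
    (A.card : ℝ) ≤ min ((1 + ε) * (n : ℝ) ^ (1 / 3 : ℝ))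
      (q + 6 * (40000 * (n / (q ^ 3 - 1)) + 1) ^ 2 +
        4 * (40000 * (n / (q ^ 3 - 1)) + 1) * (√q + 1)) := by
  obtain ⟨q₀, h⟩ := both ε hε
  refine ⟨q₀, fun K L _ _ _ _ q hq ho h2 h3 θ g lam hθ hg n A B u h7 hn hA hB hc hu => ?_⟩
  obtain ⟨a1, a2⟩ := h K L q hq ho h2 h3 θ g lam hθ hg n A B u hn hA hB hc hu
  exact le_min (a2 h7) a1

end Pool.Agent.Results.MP_a8c702_nt.BoseRigidInt
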