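import Pool.Agent.Lib.MP_a8c702_nt.LT.Wrap

/-! Sets cut out by a line on a finite group of characters: the structure of the dense ones, over
every field. -/

namespace Pool.Agent.Results.MP_a8c702_nt.LineInverse

open Pool.Agent.Lib.MP_a8c702_nt.LT

theorem result (h : ℕ) (hh : 2 ≤ h) (ε : ℝ) (hε : 0 < ε) : ∃ C : ℕ,
    ∀ (K : Type) [Field K] (G : Type) [CommGroup G] [Finite G] (a b u : Fin (h + 1) → K)
      (ρ : Fin (h + 1) → G →* Kˣ) (A : Finset G),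
      (∀ j k, j ≠ k → a j * b k ≠ a k * b j) → (∀ j, u j ≠ 0) →
      (∀ g, (∀ j k, ρ j g = ρ k g) → g = 1) →
      (∀ g ∈ A, ∃ x y : K, ∀ j, u j * ρ j g = a j * x + b j * y) →
      C < A.card → ε * (Nat.card G : ℝ) ^ ((h : ℝ)⁻¹) ≤ A.card →
      ∃ (p e I : ℕ) (σ : Equiv.Perm (Fin (h + 1))) (A₀ : Finset G),
        p.Prime ∧ CharP K p ∧ 0 < e ∧ 0 < I ∧ A₀ ⊆ A ∧ A.card ≤ A₀.card + C ∧
        (∀ g ∈ A₀, ∀ g' ∈ A₀, ∀ k, (ρ k (g / g') / ρ 0 (g / g')) ^ p ^ e =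
          ρ (σ k) (g / g') / ρ (σ 0) (g / g')) ∧
        A₀.card ≤ p ^ e + 1 ∧ p ^ e ≤ C * A.card ∧ (p ^ e - h) ^ h ≤ I * Nat.card G ∧
        (I * A.card : ℝ) ≤ (1 + ε) * (p ^ e - h : ℕ) := by
  obtain ⟨D, hD⟩ := exists_nat_gt ε⁻¹
  have hD0 : (0 : ℝ) < D := (inv_pos.2 hε).trans hD
  have hD1 : 1 < ε * D := by rwa [inv_lt_iff_one_lt_mul₀' hε] at hD
  have h0 : h ≠ 0 := by omega
  obtain ⟨C, h1⟩ := inv' h D hh (by exact_mod_cast hD0)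
  refine ⟨C, fun K _ G _ _ a b u ρ A hab hu hρ hA a1 a2 => ?_⟩
  have a3 : (0 : ℝ) < A.card := by exact_mod_cast (Nat.zero_le _).trans_lt a1
  obtain ⟨p, e, I, σ, A₀, b0, b1, b2, b3, b4, b5, b6, b7, b8, b9, c0⟩ := h1 K G a b u ρ A hab hu
    hρ hA a1 (by
      have : (Nat.card G : ℝ) < (D * A.card) ^ h := by
        rw [← Real.rpow_inv_natCast_pow (Nat.cast_nonneg (Nat.card G)) h0]
        exact pow_lt_pow_left₀ (lt_of_mul_lt_mul_left (a2.trans_lt (by nlinarith)) hε.le)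
          (by positivity) h0
      exact_mod_cast this)
  refine ⟨p, e, I, σ, A₀, b1, b2, b3, b7, b0, b4, c0, b5, b6, b8, le_of_mul_le_mul_left ?_ hD0⟩
  have c1 : (I : ℝ) * (D * A.card) ≤ (D + 1) * (p ^ e - h : ℕ) := by exact_mod_cast b9
  nlinarith [Nat.cast_nonneg (α := ℝ) (p ^ e - h)]

end Pool.Agent.Results.MP_a8c702_nt.LineInverse
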