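import Pool.Agent.Lib.MP_a8c702_nt.BS.Smooth

namespace Pool.Agent.Results.MP_a8c702_nt.StarBound

open Finset Pool.Agent.Lib.MP_a8c702_nt.BS

theorem star_of (A : Finset ℕ)
    (h : ∀ S ⊆ A, ∀ T ⊆ A, S.card = 3 → T.card = 3 → Disjoint S T → ∑ x ∈ S, x ≠ ∑ x ∈ T, x) :
    Pool.Agent.Lib.MP_a8c702_nt.BS.Star (A.image (fun x : ℕ => (x : ℤ))) := by
  intro a ha b hb c hc d hd e he f hf E
  obtain ⟨a, ka, rfl⟩ := mem_image.1 ha
  obtain ⟨b, kb, rfl⟩ := mem_image.1 hb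
  obtain ⟨c, kc, rfl⟩ := mem_image.1 hc
  obtain ⟨d, kd, rfl⟩ := mem_image.1 hd
  obtain ⟨e, ke, rfl⟩ := mem_image.1 he
  obtain ⟨f, kf, rfl⟩ := mem_image.1 hf
  by_contra hcon
  simp only [Nat.cast_inj, not_or] at hcon
  obtain ⟨h1, h2, h3, h4, h5, h6, h7, h8, h9, h10, h11, h12, h13, h14, h15⟩ := hcon
  have m1 : a ∉ ({b, c} : Finset ℕ) := by simp [h1, h2]
  have m2 : d ∉ ({e, f} : Finset ℕ) := by simp [h4, h5]
  refine h {a, b, c} ?_ {d, e, f} ?_ (card_eq_three.2 ⟨a, b, c, h1, h2, h3, rfl⟩)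
    (card_eq_three.2 ⟨d, e, f, h4, h5, h6, rfl⟩) ?_ ?_
  · simp [insert_subset_iff, ka, kb, kc]
  · simp [insert_subset_iff, kd, ke, kf]
  · rw [disjoint_left]
    intro x hx hy
    simp only [mem_insert, mem_singleton] at hx hy
    rcases hx with rfl | rfl | rfl <;> tauto
  · rw [sum_insert m1, sum_insert m2, sum_pair h3, sum_pair h6]
    exact_mod_cast (by rw [← add_assoc, ← add_assoc]; exact E : (a : ℤ) + (b + c) = d + (e + f))

theorem result (ε : ℝ) (hε : 0 < ε) : ∃ N₀ : ℕ, ∀ N : ℕ, N₀ ≤ N → ∀ A : Finset ℕ,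
    A ⊆ Finset.Icc 1 N →
    (∀ S ⊆ A, ∀ T ⊆ A, S.card = 3 → T.card = 3 → Disjoint S T → ∑ x ∈ S, x ≠ ∑ x ∈ T, x) →
    (A.card : ℝ) ^ 3 ≤ (min 12 (6 / Pool.Agent.Lib.MP_a8c702_nt.BS.mu) + ε) * N := by
  obtain ⟨N₀, h⟩ := final ε hε
  refine ⟨N₀, fun N hN A hA hS => ?_⟩
  have h1 := h N hN _ (star_of A hS) (fun a ha => by
    obtain ⟨a, ka, rfl⟩ := mem_image.1 ha
    have := mem_Icc.1 (hA ka)
    omega)
  rw [card_image_of_injective _ Nat.cast_injective] at h1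
  have h2 : 6 / mu ≤ 12 := by
    have := half_le_mu
    rw [div_le_iff₀ (by linarith)]
    linarith
  rwa [min_eq_right h2]

end Pool.Agent.Results.MP_a8c702_nt.StarBound
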